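import Pool.Agent.W172.MK.Stm

/-!
Project MK, part STEP: one step of the process.
-/

set_option autoImplicit false

open MeasureTheory ProbabilityTheory Filter Topology

namespace Pool.Agent.W839.MK

open Pool.Agent.W172.MK

theorem step (hE : P_STEPE) (hO : P_STEPO) : P_STEP := by
  intro S mS μ hμ p F hK hR n G hG f hf hb
  rcases Int.even_or_odd n with ⟨a, ha⟩ | ⟨a, ha⟩
  · have hn : n = 2 * a := by omega
    subst hn
    exact hE S mS μ hμ p F hK hR a G hG f hf hb
  · subst ha
    have h := hO S mS μ hμ p F hK hR a G hG f hf hb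
    have e : 2 * a + 1 + 1 = 2 * a + 2 := by omega
    rw [e]
    exact h

end Pool.Agent.W839.MK
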